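import Mathlib

/-! Cauchy estimates for powers of `(1 - ζ a)⁻¹`. -/

namespace Pool.Agent.P.MP_e0d2b2_an

open Metric

variable {A : Type*} [NormedRing A] [NormedAlgebra ℂ A] [CompleteSpace A]

noncomputable def G (a : A) (ζ : ℂ) : A := Ring.inverse (1 - ζ • a)

theorem isOpen_U (a : A) : IsOpen {ζ : ℂ | IsUnit (1 - ζ • a)} := by
  have hc : Continuous fun ζ : ℂ => (1 : A) - ζ • a := by fun_prop
  exact Units.isOpen.preimage hc

omit [CompleteSpace A] in
theorem commute_G (a : A) (ζ : ℂ) : Commute a (G a ζ) := by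
  unfold G
  have h : Commute a (1 - ζ • a) := (Commute.one_right a).sub_right ((Commute.refl a).smul_right ζ)
  by_cases hu : IsUnit (1 - ζ • a)
  · obtain ⟨u, hu⟩ := hu
    rw [← hu] at h ⊢
    rw [Ring.inverse_unit]
    exact h.units_inv_right
  · rw [Ring.inverse_non_unit _ hu]
    exact Commute.zero_right a

theorem hasDerivAt_G (a : A) {ζ : ℂ} (h : IsUnit (1 - ζ • a)) :
    HasDerivAt (G a) (a * G a ζ ^ 2) ζ := by
  have H₁ : HasFDerivAt Ring.inverse _ (1 - ζ • a) :=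
    hasFDerivAt_ringInverse (𝕜 := ℂ) h.unit
  have H₂ : HasDerivAt (fun w : ℂ => (1 : A) - w • a) (-a) ζ := by
    simpa using ((hasDerivAt_id ζ).smul_const a).const_sub 1
  have H₃ := H₁.comp_hasDerivAt ζ H₂
  have hG : G a ζ = ↑h.unit⁻¹ := by
    unfold G
    rw [← Ring.inverse_unit h.unit, h.unit_spec]
  have hc := (commute_G a ζ).eq
  refine HasDerivAt.congr_deriv H₃ ?_
  rw [← hG]
  simp only [neg_apply, ContinuousLinearMap.mulLeftRight_apply, mul_neg,
    neg_mul, neg_neg]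
  rw [← hc, pow_two, mul_assoc]

theorem hasDerivAt_G_pow (a : A) {ζ : ℂ} (h : IsUnit (1 - ζ • a)) (k : ℕ) :
    HasDerivAt (fun w => G a w ^ k) ((k : ℂ) • (a * G a ζ ^ (k + 1))) ζ := by
  induction k with
  | zero => simpa using hasDerivAt_const ζ (1 : A)
  | succ k ih =>
    have H := ih.mul (hasDerivAt_G a h)
    have e1 : (fun w => G a w ^ (k + 1)) = (fun w => G a w ^ k) * G a := by
      funext w; simp [pow_succ]
    rw [e1]
    convert H using 1
    have hc : G a ζ ^ k * a = a * G a ζ ^ k := ((commute_G a ζ).pow_right k).eq.symm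
    rw [← mul_assoc (G a ζ ^ k), hc, mul_assoc, ← pow_add, smul_mul_assoc, mul_assoc, ← pow_succ]
    push_cast
    rw [add_smul, one_smul]

theorem iteratedDeriv_G_pow (a : A) (k j : ℕ) :
    ∀ ζ : ℂ, IsUnit (1 - ζ • a) →
      iteratedDeriv j (fun w => G a w ^ k) ζ
        = (k.ascFactorial j : ℂ) • (a ^ j * G a ζ ^ (k + j)) := by
  induction j with
  | zero => intro ζ _; simp
  | succ j ih =>
    intro ζ h
    rw [iteratedDeriv_succ]
    have hev : iteratedDeriv j (fun w => G a w ^ k) =ᶠ[nhds ζ]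
        fun w => (k.ascFactorial j : ℂ) • (a ^ j * G a w ^ (k + j)) := by
      filter_upwards [(isOpen_U a).mem_nhds h] with w hw using ih w hw
    rw [hev.deriv_eq]
    have H := ((hasDerivAt_G_pow a h (k + j)).const_mul (a ^ j)).const_smul
      (k.ascFactorial j : ℂ)
    have H' := H.deriv
    simp only [Pi.smul_def] at H'
    rw [H', Nat.ascFactorial_succ, mul_smul_comm, smul_smul, ← mul_assoc, ← pow_succ]
    push_cast
    rw [mul_comm, add_assoc]

omit [CompleteSpace A] in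
theorem isUnit_of_spectrum {a : A} (hs : spectrum ℂ a ⊆ ball 0 1) {ζ : ℂ} (hζ : ‖ζ‖ ≤ 1) :
    IsUnit (1 - ζ • a) := by
  by_cases h0 : ζ = 0
  · simp [h0]
  have hn : ζ⁻¹ ∉ spectrum ℂ a := by
    intro hm
    have h1 := hs hm
    rw [mem_ball_zero_iff, norm_inv] at h1
    have h2 : 0 < ‖ζ‖ := norm_pos_iff.mpr h0
    rw [inv_lt_one_iff₀] at h1
    rcases h1 with h1 | h1 <;> linarith
  have hu : IsUnit (algebraMap ℂ A ζ⁻¹ - a) := by
    simpa [spectrum.mem_iff] using hn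
  have : (1 : A) - ζ • a = algebraMap ℂ A ζ * (algebraMap ℂ A ζ⁻¹ - a) := by
    rw [mul_sub, ← map_mul, mul_inv_cancel₀ h0, map_one, Algebra.smul_def]
  rw [this]
  exact ((isUnit_iff_ne_zero.mpr h0).map (algebraMap ℂ A)).mul hu

omit [CompleteSpace A] in
theorem norm_G_le {a : A} (hs : spectrum ℂ a ⊆ ball 0 1) {M : ℝ}
    (hM : ∀ z : ℂ, 1 ≤ ‖z‖ → ‖resolvent a z‖ ≤ M) {ζ : ℂ} (hζ : ‖ζ‖ = 1) : ‖G a ζ‖ ≤ M := by
  have h0 : ζ ≠ 0 := by rintro rfl; simp at hζ
  have hu := isUnit_of_spectrum hs hζ.le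
  have e1 : algebraMap ℂ A ζ⁻¹ - a = ζ⁻¹ • (1 - ζ • a) := by
    rw [smul_sub, smul_smul, inv_mul_cancel₀ h0, one_smul, Algebra.algebraMap_eq_smul_one]
  have e2 : resolvent a ζ⁻¹ = ζ • G a ζ := by
    unfold resolvent G
    obtain ⟨u, hu⟩ := hu
    rw [e1, ← hu, Ring.inverse_unit]
    have : ζ⁻¹ • (u : A) = ((Units.mk0 ζ h0)⁻¹ • u : Aˣ) := by
      simp [Units.smul_def]
    rw [this, Ring.inverse_unit]
    simp [Units.smul_def]
  have h := hM ζ⁻¹ (by rw [norm_inv, hζ]; simp)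
  rwa [e2, norm_smul, hζ, one_mul] at h

/-- The key estimate: `C(n+j, j) ‖a^j‖ ≤ M^(n+1)`. -/
theorem choose_mul_norm_pow_le {a : A} (hs : spectrum ℂ a ⊆ ball 0 1) {M : ℝ}
    (hM : ∀ z : ℂ, 1 ≤ ‖z‖ → ‖resolvent a z‖ ≤ M) (n j : ℕ) :
    ((n + j).choose j : ℝ) * ‖a ^ j‖ ≤ M ^ (n + 1) := by
  have hd : DiffContOnCl ℂ (fun w => G a w ^ (n + 1)) (ball 0 1) := by
    apply DifferentiableOn.diffContOnCl
    rw [closure_ball _ one_ne_zero]
    intro w hw
    exact (hasDerivAt_G_pow a (isUnit_of_spectrum hs (mem_closedBall_zero_iff.mp hw))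
      (n + 1)).differentiableAt.differentiableWithinAt
  have hb : ∀ z ∈ sphere (0 : ℂ) 1, ‖G a z ^ (n + 1)‖ ≤ M ^ (n + 1) := by
    intro z hz
    have h1 := norm_G_le hs hM (mem_sphere_zero_iff_norm.mp hz)
    exact (norm_pow_le' _ (Nat.succ_pos n)).trans (pow_le_pow_left₀ (norm_nonneg _) h1 _)
  have h := Complex.norm_iteratedDeriv_le_of_forall_mem_sphere_norm_le j one_pos hd hb
  rw [iteratedDeriv_G_pow a (n + 1) j 0 (by simp)] at h
  have hG0 : G a 0 = 1 := by simp [G]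
  rw [hG0, one_pow, mul_one, norm_smul, Nat.ascFactorial_eq_factorial_mul_choose, one_pow,
    div_one, Complex.norm_natCast] at h
  push_cast at h
  have hf : (0 : ℝ) < j.factorial := by exact_mod_cast j.factorial_pos
  rw [mul_assoc] at h
  exact le_of_mul_le_mul_left h hf

end Pool.Agent.P.MP_e0d2b2_an
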