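import Mathlib

/-! A two-dimensional Banach space with a nilpotent operator `S`, `‖S‖ ≥ e`,
`‖1 + ζ S‖ ≤ exp ‖ζ‖`. -/

namespace Pool.Agent.P.MP_e0d2b2_an

open BoundedContinuousFunction

universe u

/-- the underlying vector space `ℂ²` -/
def E : Type u := ULift.{u} (ℂ × ℂ)

noncomputable instance : AddCommGroup E.{u} := inferInstanceAs (AddCommGroup (ULift.{u} (ℂ × ℂ)))
noncomputable instance : Module ℂ E.{u} := inferInstanceAs (Module ℂ (ULift.{u} (ℂ × ℂ)))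
instance : Module.Finite ℂ E.{u} := inferInstanceAs (Module.Finite ℂ (ULift.{u} (ℂ × ℂ)))
instance : Nontrivial E.{u} := inferInstanceAs (Nontrivial (ULift.{u} (ℂ × ℂ)))

theorem mul_exp_neg_le (t : ℝ) : t * Real.exp (-t) ≤ Real.exp (-1) := by
  have h := Real.add_one_le_exp (t - 1)
  have e1 : Real.exp (-1) = Real.exp (t - 1) * Real.exp (-t) := by
    rw [← Real.exp_add]; congr 1; ring
  rw [e1]
  exact mul_le_mul_of_nonneg_right (by linarith) (Real.exp_pos _).le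

noncomputable def g0 : ℂ →ᵇ ℂ :=
  BoundedContinuousFunction.ofNormedAddCommGroup (fun w => ((Real.exp (-‖w‖) : ℝ) : ℂ))
    (by fun_prop) 1 (fun w => by
      rw [Complex.norm_real, Real.norm_eq_abs, abs_of_pos (Real.exp_pos _)]
      exact Real.exp_le_one_iff.mpr (by simp))

noncomputable def g1 : ℂ →ᵇ ℂ :=
  BoundedContinuousFunction.ofNormedAddCommGroup (fun w => w * ((Real.exp (-‖w‖) : ℝ) : ℂ))
    (by fun_prop) (Real.exp (-1)) (fun w => by
      rw [norm_mul, Complex.norm_real, Real.norm_eq_abs, abs_of_pos (Real.exp_pos _)]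
      exact mul_exp_neg_le _)

noncomputable def emb : E.{u} →ₗ[ℂ] (ℂ →ᵇ ℂ) where
  toFun v := v.down.1 • g0 + v.down.2 • g1
  map_add' v w := by
    change (v.down.1 + w.down.1) • g0 + (v.down.2 + w.down.2) • g1 = _
    simp only [add_smul]; abel
  map_smul' c v := by
    change (c * v.down.1) • g0 + (c * v.down.2) • g1 = _
    simp only [mul_smul, smul_add, RingHom.id_apply]

theorem emb_apply (v : E.{u}) (w : ℂ) :
    emb v w = (v.down.1 + w * v.down.2) * ((Real.exp (-‖w‖) : ℝ) : ℂ) := by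
  change v.down.1 * ((Real.exp (-‖w‖) : ℝ) : ℂ)
    + v.down.2 * (w * ((Real.exp (-‖w‖) : ℝ) : ℂ)) = _
  ring

theorem emb_injective : Function.Injective emb.{u} := by
  rw [← LinearMap.ker_eq_bot, LinearMap.ker_eq_bot']
  intro v hv
  have h0 := emb_apply v 0
  have h1 := emb_apply v 1
  rw [hv] at h0 h1
  have hne : ∀ t : ℝ, ((Real.exp t : ℝ) : ℂ) ≠ 0 := fun t => by
    exact_mod_cast (Real.exp_pos t).ne'
  have a0 : v.down.1 = 0 := by
    have := (mul_eq_zero.mp h0.symm).resolve_right (hne _)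
    simpa using this
  have a1 : v.down.2 = 0 := by
    have := (mul_eq_zero.mp h1.symm).resolve_right (hne _)
    simpa [a0] using this
  obtain ⟨⟨x, y⟩⟩ := v
  simp only at a0 a1
  subst a0 a1
  rfl

noncomputable instance : NormedAddCommGroup E.{u} :=
  NormedAddCommGroup.induced E (ℂ →ᵇ ℂ) emb emb_injective

noncomputable instance : NormedSpace ℂ E.{u} := NormedSpace.induced ℂ E (ℂ →ᵇ ℂ) emb

instance : CompleteSpace E.{u} := FiniteDimensional.complete ℂ E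

theorem norm_E (v : E.{u}) : ‖v‖ = ‖emb v‖ := rfl

noncomputable def Slin : E.{u} →ₗ[ℂ] E.{u} where
  toFun v := ⟨(v.down.2, 0)⟩
  map_add' v w := by
    change _ = (⟨(v.down.2 + w.down.2, 0 + 0)⟩ : ULift (ℂ × ℂ))
    rw [add_zero]; rfl
  map_smul' c v := by
    change _ = (⟨(c * v.down.2, c * 0)⟩ : ULift (ℂ × ℂ))
    rw [mul_zero]; rfl

noncomputable def S : E.{u} →L[ℂ] E.{u} := LinearMap.toContinuousLinearMap Slin

theorem S_apply (v : E.{u}) : S v = ⟨(v.down.2, 0)⟩ := rfl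

theorem S_mul_S : S.{u} * S.{u} = 0 := by
  ext v; rfl

theorem norm_one_add_smul_S (ζ : ℂ) : ‖(1 : E.{u} →L[ℂ] E.{u}) + ζ • S‖ ≤ Real.exp ‖ζ‖ := by
  refine ContinuousLinearMap.opNorm_le_bound _ (Real.exp_pos _).le fun v => ?_
  rw [norm_E, norm_E]
  refine (BoundedContinuousFunction.norm_le (by positivity)).mpr fun w => ?_
  have h1 : (((1 : E.{u} →L[ℂ] E.{u}) + ζ • S) v).down.1 = v.down.1 + ζ * v.down.2 := rfl
  have h2 : (((1 : E.{u} →L[ℂ] E.{u}) + ζ • S) v).down.2 = v.down.2 + ζ * 0 := rfl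
  have h3 := (emb v).norm_coe_le_norm (w + ζ)
  rw [emb_apply] at h3 ⊢
  rw [h1, h2]
  rw [norm_mul, Complex.norm_real, Real.norm_eq_abs, abs_of_pos (Real.exp_pos _)] at h3 ⊢
  have e1 : v.down.1 + ζ * v.down.2 + w * (v.down.2 + ζ * 0) = v.down.1 + (w + ζ) * v.down.2 := by
    ring
  rw [e1]
  have h4 : Real.exp (-‖w‖) ≤ Real.exp ‖ζ‖ * Real.exp (-‖w + ζ‖) := by
    rw [← Real.exp_add, Real.exp_le_exp]
    have := norm_add_le w ζ
    linarith
  calc ‖v.down.1 + (w + ζ) * v.down.2‖ * Real.exp (-‖w‖)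
      ≤ ‖v.down.1 + (w + ζ) * v.down.2‖ * (Real.exp ‖ζ‖ * Real.exp (-‖w + ζ‖)) := by gcongr
    _ = Real.exp ‖ζ‖ * (‖v.down.1 + (w + ζ) * v.down.2‖ * Real.exp (-‖w + ζ‖)) := by ring
    _ ≤ _ := by gcongr

theorem exp_one_le_norm_S : Real.exp 1 ≤ ‖S.{u}‖ := by
  let v : E.{u} := ⟨(0, 1)⟩
  have h1 : ‖v‖ ≤ Real.exp (-1) := by
    rw [norm_E]
    refine (BoundedContinuousFunction.norm_le (Real.exp_pos _).le).mpr fun w => ?_
    rw [emb_apply, norm_mul, Complex.norm_real, Real.norm_eq_abs, abs_of_pos (Real.exp_pos _)]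
    simpa [v] using mul_exp_neg_le ‖w‖
  have h2 : 1 ≤ ‖S v‖ := by
    rw [norm_E]
    have := (emb (S v)).norm_coe_le_norm 0
    have e : (S v).down.1 = 1 := rfl
    rw [emb_apply, e] at this
    simpa using this
  have h3 := S.le_opNorm v
  have h4 : ‖S.{u}‖ * ‖v‖ ≤ ‖S.{u}‖ * Real.exp (-1) := by gcongr
  have h5 : Real.exp 1 * Real.exp (-1) = 1 := by rw [← Real.exp_add]; simp
  have h6 : 0 < Real.exp (-1) := Real.exp_pos _
  nlinarith

theorem resolvent_facts (ε : ℂ) {z : ℂ} (hz : z ≠ 0) :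
    z ∈ resolventSet ℂ (ε • S.{u}) ∧ resolvent (ε • S.{u}) z = z⁻¹ • (1 + (ε / z) • S) := by
  have h1 : (algebraMap ℂ (E.{u} →L[ℂ] E.{u}) z - ε • S) * (z⁻¹ • (1 + (ε / z) • S)) = 1 := by
    rw [Algebra.algebraMap_eq_smul_one]
    simp only [mul_smul_comm, mul_add, sub_mul, smul_mul_assoc, S_mul_S, mul_one, one_mul,
      smul_zero, sub_zero, smul_smul, div_mul_cancel₀ _ hz, sub_add_cancel, inv_mul_cancel₀ hz,
      one_smul]
  have h2 : (z⁻¹ • (1 + (ε / z) • S)) * (algebraMap ℂ (E.{u} →L[ℂ] E.{u}) z - ε • S) = 1 := by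
    rw [Algebra.algebraMap_eq_smul_one]
    simp only [mul_smul_comm, add_mul, mul_sub, smul_mul_assoc, S_mul_S, mul_one, one_mul,
      smul_zero, add_zero, smul_add, smul_smul, mul_inv_cancel₀ hz, one_smul]
    have : z * (z⁻¹ * (ε / z)) = ε * z⁻¹ := by field_simp
    rw [this, add_sub_cancel_right]
  let un : (E.{u} →L[ℂ] E.{u})ˣ := ⟨_, _, h1, h2⟩
  refine ⟨⟨un, rfl⟩, ?_⟩
  exact Ring.inverse_unit un

end Pool.Agent.P.MP_e0d2b2_an
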