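import Mathlib

/-! The real-variable inequality behind the upper bound `e`. -/

namespace Pool.Agent.P.MP_e0d2b2_an

open Finset

/-- the standing hypothesis on the sequence `b j = ‖T^j‖` -/
def Hyp (M : ℝ) (b : ℕ → ℝ) : Prop :=
  ∀ n j : ℕ, ((n + j).choose j : ℝ) * b j ≤ M ^ (n + 1)

theorem Hyp.le_div {M : ℝ} {b : ℕ → ℝ} (h : Hyp M b) (n j : ℕ) :
    b j ≤ M ^ (n + 1) / ((n + j).choose j : ℝ) := by
  have hp : (0 : ℝ) < ((n + j).choose j : ℝ) := by
    exact_mod_cast Nat.choose_pos (Nat.le_add_left j n)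
  rw [le_div_iff₀ hp, mul_comm]
  exact h n j

noncomputable def cc (p j : ℕ) : ℝ := 1 / ((j + p + 1).choose (p + 1) : ℝ)

theorem cc_nonneg (p j : ℕ) : 0 ≤ cc p j := by unfold cc; positivity

theorem telescope (p j : ℕ) :
    1 / ((p + 2 + j).choose j : ℝ) = ((p : ℝ) + 2) / (p + 1) * (cc p j - cc p (j + 1)) := by
  have hs : (p + 2 + j).choose j = (j + p + 2).choose (p + 2) := by
    rw [show p + 2 + j = j + (p + 2) by ring, Nat.choose_symm_add, add_assoc]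
  have h1 : (j + p + 2) * (j + p + 1).choose (p + 1) = (j + p + 2).choose (p + 2) * (p + 2) :=
    Nat.add_one_mul_choose_eq (j + p + 1) (p + 1)
  have h2 : (j + p + 2).choose (p + 2) * (p + 2) = (j + p + 2).choose (p + 1) * (j + 1) := by
    have := Nat.choose_succ_right_eq (j + p + 2) (p + 1)
    rw [show j + p + 2 - (p + 1) = j + 1 by omega] at this
    exact this
  have p1 : (0 : ℝ) < ((j + p + 1).choose (p + 1) : ℝ) := by
    exact_mod_cast Nat.choose_pos (by omega)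
  have p2 : (0 : ℝ) < ((j + p + 2).choose (p + 1) : ℝ) := by
    exact_mod_cast Nat.choose_pos (by omega)
  have p3 : (0 : ℝ) < ((j + p + 2).choose (p + 2) : ℝ) := by
    exact_mod_cast Nat.choose_pos (by omega)
  unfold cc
  rw [hs, show j + 1 + p + 1 = j + p + 2 by ring]
  have h1' : ((j : ℝ) + p + 2) * ((j + p + 1).choose (p + 1) : ℝ)
      = ((j + p + 2).choose (p + 2) : ℝ) * (p + 2) := by exact_mod_cast h1
  have h2' : ((j + p + 2).choose (p + 2) : ℝ) * (p + 2)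
      = ((j + p + 2).choose (p + 1) : ℝ) * (j + 1) := by exact_mod_cast h2
  set x := ((j + p + 1).choose (p + 1) : ℝ)
  set y := ((j + p + 2).choose (p + 1) : ℝ)
  set z := ((j + p + 2).choose (p + 2) : ℝ)
  have hx : 1 / x = ((j : ℝ) + p + 2) / (z * (p + 2)) := by
    rw [div_eq_div_iff p1.ne' (by positivity), ← h1']; ring
  have hy : 1 / y = ((j : ℝ) + 1) / (z * (p + 2)) := by
    rw [div_eq_div_iff p2.ne' (by positivity), h2']; ring
  rw [hx, hy]
  field_simp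
  ring

theorem Hyp.block {M : ℝ} {b : ℕ → ℝ} (h : Hyp M b) (p A : ℕ) (B : ℕ) (hAB : A ≤ B) :
    ∑ j ∈ Ico A B, b j ≤ M ^ (p + 3) * (((p : ℝ) + 2) / (p + 1) * (cc p A - cc p B)) := by
  induction B, hAB using Nat.le_induction with
  | base => simp
  | succ B hAB ih =>
    rw [Finset.sum_Ico_succ_top hAB]
    have h1 := h.le_div (p + 2) B
    rw [div_eq_mul_one_div, telescope] at h1
    have : M ^ (p + 3) * (((p : ℝ) + 2) / (p + 1) * (cc p A - cc p (B + 1)))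
        = M ^ (p + 3) * (((p : ℝ) + 2) / (p + 1) * (cc p A - cc p B))
          + M ^ (p + 2 + 1) * (((p : ℝ) + 2) / (p + 1) * (cc p B - cc p (B + 1))) := by ring
    rw [this]
    linarith

theorem Hyp.tail {M : ℝ} {b : ℕ → ℝ} (h : Hyp M b) (hM : 0 ≤ M) (p A B : ℕ) :
    ∑ j ∈ Ico A B, b j ≤ M ^ (p + 3) * (((p : ℝ) + 2) / (p + 1) * cc p A) := by
  have hA := cc_nonneg p A
  rcases le_total A B with hAB | hAB
  · refine (h.block p A B hAB).trans ?_
    have hB := cc_nonneg p B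
    gcongr
    linarith
  · rw [Finset.Ico_eq_empty_of_le hAB, Finset.sum_empty]
    positivity

theorem sum_split {b : ℕ → ℝ} (hb : ∀ j, 0 ≤ b j) (A B N : ℕ) (hAB : A ≤ B) :
    ∑ j ∈ Ico A N, b j ≤ ∑ j ∈ Ico A B, b j + ∑ j ∈ Ico B N, b j := by
  rcases le_total B N with h | h
  · rw [Finset.sum_Ico_consecutive _ hAB h]
  · have h1 : ∑ j ∈ Ico A N, b j ≤ ∑ j ∈ Ico A B, b j :=
      Finset.sum_le_sum_of_subset_of_nonneg (Finset.Ico_subset_Ico_right h) fun j _ _ => hb j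
    have h2 : 0 ≤ ∑ j ∈ Ico B N, b j := Finset.sum_nonneg fun j _ => hb j
    linarith

/-- The comparison function. -/
noncomputable def Phi (J : ℕ) (ns : ℕ → ℕ) (p : ℕ) (M : ℝ) : ℝ :=
  ∑ j ∈ Ico 1 (J + 1), M ^ (ns j) / ((ns j + j).choose j : ℝ)
    + M ^ (p + 2) * (((p : ℝ) + 2) / (p + 1) * cc p (J + 1))

theorem Hyp.sum_le_Phi {M : ℝ} {b : ℕ → ℝ} (h : Hyp M b) (hb : ∀ j, 0 ≤ b j) (hM : 0 ≤ M)
    (J : ℕ) (ns : ℕ → ℕ) (p N : ℕ) :
    ∑ j ∈ Ico 1 N, b j ≤ M * Phi J ns p M := by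
  refine (sum_split hb 1 (J + 1) N (by omega)).trans ?_
  unfold Phi
  rw [mul_add, Finset.mul_sum]
  refine add_le_add (Finset.sum_le_sum fun j _ => ?_) ?_
  · refine (h.le_div (ns j) j).trans_eq ?_
    rw [pow_succ]; ring
  · refine (h.tail hM p (J + 1) N).trans_eq ?_
    ring

theorem convexOn_Phi (J : ℕ) (ns : ℕ → ℕ) (p : ℕ) : ConvexOn ℝ (Set.Ici 0) (Phi J ns p) := by
  have key : ∀ (n : ℕ) (c : ℝ), 0 ≤ c → ConvexOn ℝ (Set.Ici (0 : ℝ)) (fun M : ℝ => M ^ n * c) := by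
    intro n c hc
    have := (convexOn_pow (𝕜 := ℝ) n).smul hc
    simpa [mul_comm] using this
  have h1 : ∀ s : Finset ℕ, ConvexOn ℝ (Set.Ici (0 : ℝ))
      (fun M : ℝ => ∑ j ∈ s, M ^ (ns j) / ((ns j + j).choose j : ℝ)) := by
    intro s
    induction s using Finset.induction_on with
    | empty => simpa using convexOn_const (0 : ℝ) (convex_Ici (0 : ℝ))
    | insert a s ha ih =>
      simp only [Finset.sum_insert ha]
      refine ConvexOn.add ?_ ih
      simp only [div_eq_mul_inv]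
      exact key _ _ (by positivity)
  have h2 := key (p + 2) (((p : ℝ) + 2) / (p + 1) * cc p (J + 1))
    (by have := cc_nonneg p (J + 1); positivity)
  exact (h1 _).add h2

theorem Phi_le_of_endpoints (J : ℕ) (ns : ℕ → ℕ) (p : ℕ) {lo hi M c : ℝ} (h0 : 0 ≤ lo)
    (h1 : lo ≤ M) (h2 : M ≤ hi) (hlo : Phi J ns p lo ≤ c * (lo - 1))
    (hhi : Phi J ns p hi ≤ c * (hi - 1)) : Phi J ns p M ≤ c * (M - 1) := by
  have hm : M ∈ segment ℝ lo hi := by
    rw [segment_eq_Icc (h1.trans h2)]; exact ⟨h1, h2⟩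
  obtain ⟨s, t, hs, ht, hst, rfl⟩ := hm
  have := (convexOn_Phi J ns p).2 (show lo ∈ Set.Ici (0 : ℝ) from h0)
    (show hi ∈ Set.Ici (0 : ℝ) from h0.trans (h1.trans h2)) hs ht hst
  simp only [smul_eq_mul] at this ⊢
  have e1 : c * (s * lo + t * hi - 1) = s * (c * (lo - 1)) + t * (c * (hi - 1)) := by
    have : t = 1 - s := by linarith
    subst this; ring
  rw [e1]
  have := mul_le_mul_of_nonneg_left hlo hs
  have := mul_le_mul_of_nonneg_left hhi ht
  linarith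

/-! ### The middle range -/

theorem middle {M : ℝ} (h1 : 7 / 6 ≤ M) (h2 : M ≤ 4) :
    ∃ J ns p, Phi J ns p M ≤ 2.718 * (M - 1) := by
  rcases le_total M (123 / 100) with a1 | a1
  · refine ⟨2, fun j => [0, 5, 9].getD j 0, 13, Phi_le_of_endpoints _ _ _ (by norm_num) h1 a1 ?_ ?_⟩ <;>
    · simp only [Phi, cc, Finset.sum_Ico_eq_sum_range, Finset.sum_range_succ]
      norm_num [Nat.choose]
  rcases le_total M (135 / 100) with a2 | a2
  · refine ⟨2, fun j => [0, 3, 7].getD j 0, 9, Phi_le_of_endpoints _ _ _ (by norm_num) a1 a2 ?_ ?_⟩ <;>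
    · simp only [Phi, cc, Finset.sum_Ico_eq_sum_range, Finset.sum_range_succ]
      norm_num [Nat.choose]
  rcases le_total M (161 / 100) with a3 | a3
  · refine ⟨5, fun j => [0, 2, 4, 5, 7, 9].getD j 0, 10,
      Phi_le_of_endpoints _ _ _ (by norm_num) a2 a3 ?_ ?_⟩ <;>
    · simp only [Phi, cc, Finset.sum_Ico_eq_sum_range, Finset.sum_range_succ]
      norm_num [Nat.choose]
  rcases le_total M (11 / 5) with a4 | a4
  · refine ⟨5, fun j => [0, 1, 2, 3, 4, 4].getD j 0, 4,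
      Phi_le_of_endpoints _ _ _ (by norm_num) a3 a4 ?_ ?_⟩ <;>
    · simp only [Phi, cc, Finset.sum_Ico_eq_sum_range, Finset.sum_range_succ]
      norm_num [Nat.choose]
  rcases le_total M (347 / 100) with a5 | a5
  · refine ⟨5, fun j => [0, 0, 1, 1, 2, 2].getD j 0, 2,
      Phi_le_of_endpoints _ _ _ (by norm_num) a4 a5 ?_ ?_⟩ <;>
    · simp only [Phi, cc, Finset.sum_Ico_eq_sum_range, Finset.sum_range_succ]
      norm_num [Nat.choose]
  · refine ⟨5, fun j => [0, 0, 0, 1, 1, 1].getD j 0, 1,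
      Phi_le_of_endpoints _ _ _ (by norm_num) a5 h2 ?_ ?_⟩ <;>
    · simp only [Phi, cc, Finset.sum_Ico_eq_sum_range, Finset.sum_range_succ]
      norm_num [Nat.choose]

/-! ### The range near `1` -/

theorem Phi_small (l : ℕ) (M : ℝ) :
    Phi 1 (fun _ => l) (2 * l) M
      = M ^ l / (l + 1) + 2 * M ^ (2 * l + 2) / ((2 * l + 1) * (2 * l + 3)) := by
  have h1 : (2 + 2 * l + 1).choose (2 * l + 1) = (2 * l + 3) * (l + 1) := by
    rw [show 2 + 2 * l + 1 = (2 * l + 1) + 2 by ring, Nat.choose_symm_add, Nat.choose_two_right]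
    rw [show 2 * l + 1 + 2 - 1 = 2 * (l + 1) by omega, ← mul_assoc, mul_comm _ 2, mul_assoc,
      Nat.mul_div_cancel_left _ two_pos]
  simp only [Phi, cc, Finset.sum_Ico_eq_sum_range, Finset.sum_range_succ]
  rw [h1]
  simp only [Finset.sum_range_zero, zero_add, add_zero, Nat.choose_one_right]
  push_cast
  field_simp

theorem pow_one_add_inv_le (n : ℕ) (hn : 1 ≤ n) :
    (1 + 1 / (n : ℝ)) ^ n ≤ Real.exp 1 * ((2 * n + 2) / (2 * n + 3)) := by
  have hn' : (1 : ℝ) ≤ n := by exact_mod_cast hn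
  have hpos : (0 : ℝ) < 1 + 1 / (n : ℝ) := by positivity
  have hlog : Real.log (1 + 1 / (n : ℝ)) ≤ ((1 + 1 / (n : ℝ)) - (1 + 1 / (n : ℝ))⁻¹) / 2 := by
    rw [← Real.sinh_log hpos, Real.self_le_sinh_iff]
    exact Real.log_nonneg (by have : (0 : ℝ) ≤ 1 / (n : ℝ) := by positivity
                              linarith)
  have e1 : (n : ℝ) * (((1 + 1 / (n : ℝ)) - (1 + 1 / (n : ℝ))⁻¹) / 2) = 1 - 1 / (2 * n + 2) := by
    field_simp
    ring
  have h2 : (1 + 1 / (n : ℝ)) ^ n ≤ Real.exp (1 - 1 / (2 * n + 2)) := by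
    rw [← Real.exp_log (pow_pos hpos n), Real.log_pow, Real.exp_le_exp, ← e1]
    exact mul_le_mul_of_nonneg_left hlog (by positivity)
  refine h2.trans ?_
  rw [Real.exp_sub, div_eq_mul_inv]
  refine mul_le_mul_of_nonneg_left ?_ (Real.exp_pos 1).le
  have h3 : 1 / (2 * (n : ℝ) + 2) + 1 ≤ Real.exp (1 / (2 * n + 2)) := Real.add_one_le_exp _
  have e2 : (2 * (n : ℝ) + 2) / (2 * n + 3) = (1 / (2 * (n : ℝ) + 2) + 1)⁻¹ := by
    field_simp
    ring
  rw [e2]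
  exact inv_anti₀ (by positivity) h3

theorem star (n : ℕ) (hn : 6 ≤ n) :
    (1 + 1 / (n : ℝ)) ^ n / (n + 1) + 2 * ((1 + 1 / (n : ℝ)) ^ n) ^ 2 / ((2 * n - 1) * (2 * n + 1))
      ≤ Real.exp 1 * (1 / n) := by
  have hn' : (6 : ℝ) ≤ n := by exact_mod_cast hn
  have h1 := pow_one_add_inv_le n (by omega)
  have h0 : 0 ≤ (1 + 1 / (n : ℝ)) ^ n := by positivity
  set E := (1 + 1 / (n : ℝ)) ^ n
  set x : ℝ := (n : ℝ)
  have he : Real.exp 1 < 2.7182818286 := Real.exp_one_lt_d9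
  have he0 : 0 < Real.exp 1 := Real.exp_pos 1
  set e := Real.exp 1
  have hx1 : 0 < 2 * x - 1 := by linarith
  have h2 : E ^ 2 ≤ e * (2.72 * ((2 * x + 2) / (2 * x + 3)) ^ 2) := by
    have : E ^ 2 ≤ (e * ((2 * x + 2) / (2 * x + 3))) ^ 2 := pow_le_pow_left₀ h0 h1 2
    refine this.trans ?_
    rw [mul_pow, pow_two e, mul_assoc]
    gcongr
    linarith
  have h3 : E / (x + 1) + 2 * E ^ 2 / ((2 * x - 1) * (2 * x + 1))
      ≤ e * ((2 * x + 2) / (2 * x + 3)) / (x + 1)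
        + 2 * (e * (2.72 * ((2 * x + 2) / (2 * x + 3)) ^ 2)) / ((2 * x - 1) * (2 * x + 1)) := by
    gcongr
  refine h3.trans ?_
  have e1 : e * ((2 * x + 2) / (2 * x + 3)) / (x + 1)
        + 2 * (e * (2.72 * ((2 * x + 2) / (2 * x + 3)) ^ 2)) / ((2 * x - 1) * (2 * x + 1))
      = e * ((2 * (2 * x + 3) * ((2 * x - 1) * (2 * x + 1)) + 5.44 * (2 * x + 2) ^ 2)
          / ((2 * x + 3) ^ 2 * ((2 * x - 1) * (2 * x + 1)))) := by
    field_simp
    ring
  rw [e1]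
  refine mul_le_mul_of_nonneg_left ?_ he0.le
  rw [div_le_div_iff₀ (by positivity) (by positivity)]
  obtain ⟨y, hy, hxy⟩ : ∃ y : ℝ, 0 ≤ y ∧ x = y + 6 := ⟨x - 6, by linarith, by ring⟩
  rw [hxy]
  nlinarith [mul_nonneg hy hy, mul_nonneg hy (mul_nonneg hy hy)]

theorem small {M : ℝ} (h1 : 1 < M) (h2 : M ≤ 7 / 6) :
    ∃ J ns p, Phi J ns p M ≤ Real.exp 1 * (M - 1) := by
  have hε : 0 < M - 1 := by linarith
  set l := ⌊1 / (M - 1)⌋₊ with hl
  have hl6 : 6 ≤ l := by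
    apply Nat.le_floor
    rw [le_div_iff₀ hε]; push_cast; linarith
  have hl6' : (6 : ℝ) ≤ l := by exact_mod_cast hl6
  have hA : (l : ℝ) ≤ 1 / (M - 1) := Nat.floor_le (by positivity)
  have hB : 1 / (M - 1) < (l : ℝ) + 1 := Nat.lt_floor_add_one _
  have hhi : M ≤ 1 + 1 / (l : ℝ) := by
    rw [le_div_iff₀ hε] at hA
    have : M - 1 ≤ 1 / (l : ℝ) := by rw [le_div_iff₀ (by linarith)]; linarith
    linarith
  have hlo : 1 + 1 / ((l : ℝ) + 1) ≤ M := by
    rw [div_lt_iff₀ hε] at hB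
    have : 1 / ((l : ℝ) + 1) ≤ M - 1 := by rw [div_le_iff₀ (by linarith)]; linarith
    linarith
  refine ⟨1, fun _ => l, 2 * l, Phi_le_of_endpoints _ _ _ (by positivity) hlo hhi ?_ ?_⟩
  · have hs := star (l + 1) (by omega)
    push_cast at hs
    rw [Phi_small, add_sub_cancel_left]
    refine le_trans (le_of_eq ?_) hs
    have hp : (0 : ℝ) < l + 1 := by linarith
    have e1 : (1 + 1 / ((l : ℝ) + 1)) ^ (l + 1) / ((l : ℝ) + 1 + 1)
        = (1 + 1 / ((l : ℝ) + 1)) ^ l / (l + 1) := by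
      rw [pow_succ]; field_simp
    rw [e1, ← pow_mul]
    congr 1
    rw [show (l + 1) * 2 = 2 * l + 2 by ring]
    congr 1
    ring
  · have hs := star l hl6
    rw [Phi_small, add_sub_cancel_left]
    refine le_trans ?_ hs
    have hp : (0 : ℝ) < l := by linarith
    have hp2 : (0 : ℝ) < 2 * l - 1 := by linarith
    have e1 : (1 + 1 / (l : ℝ)) ^ (2 * l + 2) = ((1 + 1 / (l : ℝ)) ^ l) ^ 2 * ((l + 1) ^ 2 / l ^ 2) := by
      rw [pow_add, ← pow_mul, mul_comm l 2]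
      congr 1
      field_simp
    rw [e1]
    have h0 : 0 ≤ ((1 + 1 / (l : ℝ)) ^ l) ^ 2 := by positivity
    set F := ((1 + 1 / (l : ℝ)) ^ l) ^ 2
    have : ((l : ℝ) + 1) ^ 2 / l ^ 2 / ((2 * l + 1) * (2 * l + 3))
        ≤ 1 / ((2 * l - 1) * (2 * l + 1)) := by
      rw [div_div, div_le_div_iff₀ (by positivity) (by positivity)]
      nlinarith [mul_pos hp hp, mul_pos hp (mul_pos hp hp)]
    have h5 := mul_le_mul_of_nonneg_left this (show 0 ≤ 2 * F by positivity)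
    have e2 : 2 * (F * (((l : ℝ) + 1) ^ 2 / l ^ 2)) / ((2 * l + 1) * (2 * l + 3))
        = 2 * F * (((l : ℝ) + 1) ^ 2 / l ^ 2 / ((2 * l + 1) * (2 * l + 3))) := by ring
    have e3 : 2 * F / ((2 * (l : ℝ) - 1) * (2 * l + 1))
        = 2 * F * (1 / ((2 * l - 1) * (2 * l + 1))) := by ring
    rw [e2, e3]
    linarith

/-! ### The range of large `M` -/

theorem Hyp.large {M : ℝ} {b : ℕ → ℝ} (h : Hyp M b) (hb : ∀ j, 0 ≤ b j) (hM : 4 ≤ M) (N : ℕ) :
    ∑ j ∈ Ico 1 N, b j ≤ M * (2.718 * (M - 1)) := by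
  have hM0 : 0 < M := by linarith
  obtain ⟨A, hA1, hA2⟩ : ∃ A : ℕ, 1.3 * M ≤ (A : ℝ) + 2 ∧ (A : ℝ) + 2 ≤ 1.3 * M + 1 := by
    have h1 : 2 ≤ ⌈1.3 * M⌉₊ := by
      have : (2 : ℝ) ≤ ⌈1.3 * M⌉₊ := le_trans (by linarith) (Nat.le_ceil _)
      exact_mod_cast this
    refine ⟨⌈1.3 * M⌉₊ - 2, ?_, ?_⟩
    · rw [Nat.cast_sub h1]; have := Nat.le_ceil (1.3 * M); push_cast; linarith
    · rw [Nat.cast_sub h1]
      have := Nat.ceil_lt_add_one (show 0 ≤ 1.3 * M by positivity); push_cast; linarith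
  obtain ⟨B, hB1, hB2⟩ : ∃ B : ℕ, 3 * M ≤ (B : ℝ) + 2 ∧ (B : ℝ) + 2 ≤ 3 * M + 1 := by
    have h1 : 2 ≤ ⌈3 * M⌉₊ := by
      have : (2 : ℝ) ≤ ⌈3 * M⌉₊ := le_trans (by linarith) (Nat.le_ceil _)
      exact_mod_cast this
    refine ⟨⌈3 * M⌉₊ - 2, ?_, ?_⟩
    · rw [Nat.cast_sub h1]; have := Nat.le_ceil (3 * M); push_cast; linarith
    · rw [Nat.cast_sub h1]
      have := Nat.ceil_lt_add_one (show 0 ≤ 3 * M by positivity); push_cast; linarith
  have hAB : A ≤ B := by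
    have : (A : ℝ) ≤ B := by linarith
    exact_mod_cast this
  have s1 := sum_split hb 1 (A + 1) N (by omega)
  have s2 := sum_split hb (A + 1) (B + 1) N (by omega)
  have t1 : ∑ j ∈ Ico 1 (A + 1), b j ≤ M * A := by
    have : ∀ j ∈ Ico 1 (A + 1), b j ≤ M := fun j _ => by simpa using h 0 j
    have := Finset.sum_le_card_nsmul _ _ _ this
    simpa [mul_comm] using this
  have t2 := h.block 0 (A + 1) (B + 1) (by omega)
  have t3 := h.tail hM0.le 1 (B + 1) N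
  have c1 : ∀ j : ℕ, cc 0 (j + 1) = 1 / ((j : ℝ) + 2) := by
    intro j; simp [cc]; ring
  have c2 : cc 1 (B + 1) = 2 / (((B : ℝ) + 2) * (B + 3)) := by
    unfold cc
    rw [show B + 1 + 1 + 1 = B + 3 by ring, show 1 + 1 = 2 by ring, Nat.cast_choose_two]
    push_cast
    rw [show (B : ℝ) + 3 - 1 = B + 2 by ring]
    field_simp
  rw [c1, c1] at t2
  rw [c2] at t3
  set u : ℝ := A + 2 with hu
  set v : ℝ := B + 2 with hv
  have hu0 : 0 < u := by positivity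
  have hv0 : 0 < v := by positivity
  have q1 : u + 2 * M ^ 2 / u ≤ 2.8404 * M := by
    have : 2 * M ^ 2 / u ≤ 2.8404 * M - u := by
      rw [div_le_iff₀ hu0]
      have hu2 : u ≤ 1.55 * M := by linarith
      nlinarith [mul_nonneg (sub_nonneg.mpr hA1) (sub_nonneg.mpr hu2)]
    linarith
  have q2 : 3 * M ^ 3 / (v * (v + 1)) - 2 * M ^ 2 / v ≤ -0.3313 * M := by
    have a1 : 3 * M ^ 3 / (v * (v + 1)) ≤ 3 * M ^ 3 / (v * v) := by
      gcongr; linarith
    have a2 : 3 * M ^ 3 / (v * v) - 2 * M ^ 2 / v = M * ((3 * M ^ 2 - 2 * M * v) / (v * v)) := by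
      field_simp
    have a3 : (3 * M ^ 2 - 2 * M * v) / (v * v) ≤ -0.3313 := by
      rw [div_le_iff₀ (by positivity)]
      have hv2 : v ≤ 3.25 * M := by linarith
      nlinarith [mul_nonneg (sub_nonneg.mpr hB1) (sub_nonneg.mpr hv2)]
    have a4 := mul_le_mul_of_nonneg_left a3 hM0.le
    linarith
  have e1 : M ^ (0 + 3) * ((((0 : ℕ) : ℝ) + 2) / (((0 : ℕ) : ℝ) + 1) * (1 / u - 1 / v))
      = M * (2 * M ^ 2 / u - 2 * M ^ 2 / v) := by
    push_cast; ring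
  have e2 : M ^ (1 + 3) * ((((1 : ℕ) : ℝ) + 2) / (((1 : ℕ) : ℝ) + 1) * (2 / (v * ((B : ℝ) + 3))))
      = M * (3 * M ^ 3 / (v * (v + 1))) := by
    rw [show (B : ℝ) + 3 = v + 1 by rw [hv]; ring]
    push_cast; ring
  rw [e1] at t2
  rw [e2] at t3
  have e3 : (A : ℝ) = u - 2 := by rw [hu]; ring
  rw [e3] at t1
  have fin : (u - 2) + (2 * M ^ 2 / u - 2 * M ^ 2 / v) + 3 * M ^ 3 / (v * (v + 1))
      ≤ 2.718 * (M - 1) := by linarith
  have := mul_le_mul_of_nonneg_left fin hM0.le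
  nlinarith

theorem Hyp.sum_le_of_one_lt {M : ℝ} {b : ℕ → ℝ} (h : Hyp M b) (hb : ∀ j, 0 ≤ b j) (hM : 1 < M)
    (N : ℕ) : ∑ j ∈ Ico 1 N, b j ≤ Real.exp 1 * M * (M - 1) := by
  have he : 2.7182818283 < Real.exp 1 := Real.exp_one_gt_d9
  have hM0 : 0 ≤ M := by linarith
  have hmono : M * (2.718 * (M - 1)) ≤ Real.exp 1 * M * (M - 1) := by
    have : 0 ≤ M * (M - 1) := mul_nonneg hM0 (by linarith)
    nlinarith
  rcases le_total M (7 / 6) with h1 | h1
  · obtain ⟨J, ns, p, hp⟩ := small hM h1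
    have := mul_le_mul_of_nonneg_left hp hM0
    have h3 := h.sum_le_Phi hb hM0 J ns p N
    linarith
  rcases le_total M 4 with h2 | h2
  · obtain ⟨J, ns, p, hp⟩ := middle h1 h2
    have := mul_le_mul_of_nonneg_left hp hM0
    have h3 := h.sum_le_Phi hb hM0 J ns p N
    linarith
  · exact (h.large hb h2 N).trans hmono

theorem Hyp.sum_le {M : ℝ} {b : ℕ → ℝ} (h : Hyp M b) (hb : ∀ j, 0 ≤ b j) (hM : 1 ≤ M)
    (N : ℕ) : ∑ j ∈ Ico 1 N, b j ≤ Real.exp 1 * M * (M - 1) := by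
  rcases hM.lt_or_eq with hM | rfl
  · exact h.sum_le_of_one_lt hb hM N
  · rw [sub_self, mul_zero]
    refine le_of_forall_pos_le_add fun δ hδ => ?_
    have he : Real.exp 1 < 2.7182818286 := Real.exp_one_lt_d9
    have he0 : 0 < Real.exp 1 := Real.exp_pos 1
    set ε := min 1 (δ / 6) with hε
    have hε0 : 0 < ε := lt_min one_pos (by positivity)
    have hε1 : ε ≤ 1 := min_le_left _ _
    have hε2 : ε ≤ δ / 6 := min_le_right _ _
    have h' : Hyp (1 + ε) b := fun n j =>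
      (h n j).trans (pow_le_pow_left₀ zero_le_one (by linarith) _)
    have := h'.sum_le_of_one_lt hb (by linarith) N
    rw [add_sub_cancel_left] at this
    have h4 : Real.exp 1 * (1 + ε) ≤ 6 := by nlinarith
    nlinarith

end Pool.Agent.P.MP_e0d2b2_an
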