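import Pool.Agent.P.MP_e0d2b2_an.Cauchy
import Pool.Agent.P.MP_e0d2b2_an.RealIneq
import Pool.Agent.P.MP_e0d2b2_an.Example

namespace Pool.Agent.P.MP_e0d2b2_an

universe u

theorem upper {X : Type u} [NormedAddCommGroup X] [NormedSpace ℂ X] [CompleteSpace X]
    [Nontrivial X] (T : X →L[ℂ] X) (M : ℝ) (hs : spectrum ℂ T ⊆ Metric.ball 0 1)
    (hM : ∀ z : ℂ, 1 ≤ ‖z‖ → ‖resolvent T z‖ ≤ M) :
    Summable (fun j : ℕ => ‖T ^ (j + 1)‖) ∧
      ∑' j : ℕ, ‖T ^ (j + 1)‖ ≤ Real.exp 1 * M * (M - 1) := by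
  have h : Hyp M (fun j => ‖T ^ j‖) := fun n j => choose_mul_norm_pow_le hs hM n j
  have hM1 : 1 ≤ M := by simpa using h 0 0
  have hN : ∀ N, ∑ j ∈ Finset.range N, ‖T ^ (j + 1)‖ ≤ Real.exp 1 * M * (M - 1) := by
    intro N
    have := h.sum_le (fun j => norm_nonneg _) hM1 (N + 1)
    rw [Finset.sum_Ico_eq_sum_range] at this
    simpa [add_comm] using this
  exact ⟨summable_of_sum_range_le (fun j => norm_nonneg _) hN,
    Real.tsum_le_of_sum_range_le (fun j => norm_nonneg _) hN⟩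

theorem lower {C : ℝ}
    (h : ∀ (X : Type u) [NormedAddCommGroup X] [NormedSpace ℂ X] [CompleteSpace X]
      [Nontrivial X] (T : X →L[ℂ] X) (M : ℝ), spectrum ℂ T ⊆ Metric.ball 0 1 →
      (∀ z : ℂ, 1 ≤ ‖z‖ → ‖resolvent T z‖ ≤ M) →
      Summable (fun j : ℕ => ‖T ^ (j + 1)‖) ∧ ∑' j : ℕ, ‖T ^ (j + 1)‖ ≤ C * M * (M - 1)) :
    Real.exp 1 ≤ C := by
  have key : ∀ ε : ℝ, 0 < ε → Real.exp 1 * ε ≤ C * Real.exp ε * (Real.exp ε - 1) := by
    intro ε hε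
    have hs : spectrum ℂ ((ε : ℂ) • S.{u}) ⊆ Metric.ball 0 1 := by
      intro z hz
      by_cases h0 : z = 0
      · simp [h0]
      · exact absurd (resolvent_facts (ε : ℂ) h0).1 hz
    have hM : ∀ z : ℂ, 1 ≤ ‖z‖ → ‖resolvent ((ε : ℂ) • S.{u}) z‖ ≤ Real.exp ε := by
      intro z hz
      have h0 : z ≠ 0 := by rintro rfl; norm_num at hz
      rw [(resolvent_facts (ε : ℂ) h0).2, norm_smul, norm_inv]
      have a1 : ‖z‖⁻¹ ≤ 1 := inv_le_one_of_one_le₀ hz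
      have a2 := norm_one_add_smul_S.{u} ((ε : ℂ) / z)
      have a3 : ‖(ε : ℂ) / z‖ ≤ ε := by
        rw [norm_div, Complex.norm_real, Real.norm_eq_abs, abs_of_pos hε]
        exact div_le_self hε.le hz
      have a4 : Real.exp ‖(ε : ℂ) / z‖ ≤ Real.exp ε := Real.exp_le_exp.mpr a3
      calc ‖z‖⁻¹ * ‖(1 : E.{u} →L[ℂ] E.{u}) + ((ε : ℂ) / z) • S‖ ≤ 1 * Real.exp ε := by
            gcongr; exact a2.trans a4
        _ = _ := one_mul _
    obtain ⟨h1, h2⟩ := h E.{u} ((ε : ℂ) • S) (Real.exp ε) hs hM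
    have h3 := h1.le_tsum 0 (fun j _ => norm_nonneg _)
    simp only [zero_add, pow_one, norm_smul, Complex.norm_real, Real.norm_eq_abs,
      abs_of_pos hε] at h3
    have h4 := exp_one_le_norm_S.{u}
    nlinarith
  have hd : HasDerivAt (fun ε : ℝ => C * Real.exp ε * (Real.exp ε - 1)) C 0 := by
    have := (((Real.hasDerivAt_exp 0).const_mul C).mul ((Real.hasDerivAt_exp 0).sub_const 1))
    refine HasDerivAt.congr_deriv this ?_
    simp
  have ht := hd.tendsto_slope_zero_right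
  refine ge_of_tendsto ht ?_
  filter_upwards [self_mem_nhdsWithin] with ε hε
  have hε' : 0 < ε := hε
  have := key ε hε'
  simp only [zero_add, Real.exp_zero, sub_self, mul_zero, sub_zero, smul_eq_mul]
  rw [← div_eq_inv_mul, le_div_iff₀ hε']
  exact this

theorem main : IsLeast {C : ℝ | 0 < C ∧
    ∀ (X : Type u) [NormedAddCommGroup X] [NormedSpace ℂ X] [CompleteSpace X] [Nontrivial X]
      (T : X →L[ℂ] X) (M : ℝ), spectrum ℂ T ⊆ Metric.ball 0 1 →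
      (∀ z : ℂ, 1 ≤ ‖z‖ → ‖resolvent T z‖ ≤ M) →
      Summable (fun j : ℕ => ‖T ^ (j + 1)‖) ∧ ∑' j : ℕ, ‖T ^ (j + 1)‖ ≤ C * M * (M - 1)}
    (Real.exp 1) :=
  ⟨⟨Real.exp_pos 1, fun _ _ _ _ _ T M hs hM => upper T M hs hM⟩, fun _ hC => lower hC.2⟩

end Pool.Agent.P.MP_e0d2b2_an
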