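import Mathlib
import Pool.Agent.P.MP_e0d2b2_an.XCauchy

open Metric BoundedContinuousFunction

universe u

namespace E0X

/-- the reciprocal of the bound -/
noncomputable def q (M : ℝ) (j k : ℕ) : ℝ := ((j + k).choose j : ℝ) / M ^ (k + 1)

lemma q_succ {M : ℝ} (hM : 0 < M) (j k : ℕ) :
    q M j (k + 1) * (M * (k + 1)) = q M j k * (j + k + 1) := by
  have h : ((j + k).choose j * (j + k + 1) : ℕ) = (j + k + 1).choose j * (k + 1) := by
    have := Nat.choose_mul_succ_eq (j + k) j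
    rwa [show j + k + 1 - j = k + 1 by omega] at this
  have h' : ((j + k).choose j : ℝ) * (j + k + 1) = ((j + k + 1).choose j : ℝ) * (k + 1) := by
    exact_mod_cast h
  unfold q
  rw [← add_assoc, div_mul_eq_mul_div, div_mul_eq_mul_div, h',
    div_eq_div_iff (by positivity) (by positivity)]
  ring

lemma q_nonneg {M : ℝ} (hM : 0 < M) (j k : ℕ) : 0 ≤ q M j k := by unfold q; positivity

lemma q_le {M : ℝ} (hM : 1 < M) (j k : ℕ) : q M j k ≤ q M j ⌊(j : ℝ) / (M - 1)⌋₊ := by
  have h0 : 0 < M := by linarith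
  have h1 : 0 < M - 1 := by linarith
  set K := ⌊(j : ℝ) / (M - 1)⌋₊ with hK
  have hle : (K : ℝ) * (M - 1) ≤ j := (le_div_iff₀ h1).1 (Nat.floor_le (by positivity))
  have hlt : (j : ℝ) < (K + 1) * (M - 1) := (div_lt_iff₀ h1).1 (Nat.lt_floor_add_one _)
  rcases le_total k K with h | h
  · induction h using Nat.decreasingInduction with
    | self => exact le_rfl
    | of_succ k hk ih =>
      refine le_trans ?_ ih
      have e := q_succ h0 j k
      have hk' : (k : ℝ) + 1 ≤ K := by exact_mod_cast hk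
      have b : M * (k + 1) ≤ j + k + 1 := by nlinarith
      have p : 0 < M * (k + 1) := by positivity
      refine le_of_mul_le_mul_right ?_ p
      rw [e]
      exact mul_le_mul_of_nonneg_left b (q_nonneg h0 j k)
  · induction k, h using Nat.le_induction with
    | base => exact le_rfl
    | succ k hk ih =>
      refine le_trans ?_ ih
      have e := q_succ h0 j k
      have hk' : (K : ℝ) ≤ k := by exact_mod_cast hk
      have b : (j : ℝ) + k + 1 ≤ M * (k + 1) := by nlinarith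
      have p : 0 < M * (k + 1) := by positivity
      refine le_of_mul_le_mul_right ?_ p
      rw [e]
      exact mul_le_mul_of_nonneg_left b (q_nonneg h0 j k)

abbrev Letter := Option (closedBall (0 : ℂ) 1)

/-- one resolvent letter acting on a coefficient sequence -/
noncomputable def rs (w : ℂ) (f : ℕ → ℂ) : ℕ → ℂ
  | 0 => w * f 0
  | j + 1 => w * f (j + 1) + w * rs w f j

/-- coefficient of a word -/
noncomputable def co : List Letter → ℕ → ℂ
  | [] => fun j => if j = 0 then 1 else 0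
  | none :: l => fun j => match j with
    | 0 => 0
    | j + 1 => co l j
  | some w :: l => rs w (co l)

lemma mc_mono (k j : ℕ) : k.multichoose j ≤ (k + 1).multichoose j := by
  cases j with
  | zero => simp
  | succ j => rw [Nat.multichoose_succ_succ]; omega

lemma co_le (l : List Letter) : ∀ j, ‖co l j‖ ≤ (l.length.multichoose j : ℝ) := by
  induction l with
  | nil => intro j; cases j <;> simp [co]
  | cons o l ih =>
    intro j
    cases o with
    | none =>
      cases j with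
      | zero => simp [co]
      | succ j =>
        refine (ih j).trans ?_
        have := mc_mono l.length j
        rw [List.length_cons, Nat.multichoose_succ_succ]
        exact_mod_cast (by omega)
    | some w =>
      have hw : ‖(w : ℂ)‖ ≤ 1 := mem_closedBall_zero_iff.1 w.2
      have hm : ∀ x : ℂ, ‖(w : ℂ) * x‖ ≤ ‖x‖ := fun x => by
        rw [norm_mul]; exact mul_le_of_le_one_left (norm_nonneg _) hw
      induction j with
      | zero => simpa [co, rs] using (hm _).trans (ih 0)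
      | succ j ihj =>
        rw [List.length_cons, Nat.multichoose_succ_succ]
        push_cast
        exact (norm_add_le _ _).trans (add_le_add ((hm _).trans (ih _)) ((hm _).trans ihj))

/-- words with the discrete topology, in any universe -/
def Wd : Type u := ULift.{u} (List Letter)

instance : TopologicalSpace Wd.{u} := ⊥
instance : DiscreteTopology Wd.{u} := ⟨rfl⟩

noncomputable def bd (M : ℝ) (j : ℕ) : ℝ := if j = 0 then 1 else q M j ⌊(j : ℝ) / (M - 1)⌋₊

lemma co_bd {M : ℝ} (hM : 1 < M) (j : ℕ) (l : List Letter) :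
    ‖co l j / (M : ℂ) ^ l.length‖ ≤ bd M j := by
  have h0 : 0 < M := by linarith
  rw [norm_div, norm_pow, Complex.norm_real, Real.norm_of_nonneg h0.le]
  refine (div_le_div_of_nonneg_right (co_le l j) (by positivity)).trans ?_
  unfold bd
  split_ifs with h
  · subst h
    simp only [Nat.multichoose_zero_right, Nat.cast_one]
    exact div_le_one_of_le₀ (one_le_pow₀ hM.le) (by positivity)
  · obtain ⟨j, rfl⟩ := Nat.exists_eq_succ_of_ne_zero h
    cases hl : l.length with
    | zero => simpa using q_nonneg h0 _ _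
    | succ k =>
      refine le_trans (le_of_eq ?_) (q_le hM _ k)
      rw [Nat.multichoose_eq, q]
      congr 3; omega

noncomputable def gv {M : ℝ} (hM : 1 < M) (j : ℕ) : Wd.{u} →ᵇ ℂ :=
  ofNormedAddCommGroupDiscrete (fun l => co l.down j / (M : ℂ) ^ l.down.length) (bd M j)
    fun l => co_bd hM j l.down

noncomputable def sh (M : ℝ) (o : Letter) : (Wd.{u} →ᵇ ℂ) →L[ℂ] (Wd.{u} →ᵇ ℂ) :=
  (M : ℂ) • compContinuousCLM ℂ ℂ (⟨fun l => ⟨o :: l.down⟩, continuous_of_discreteTopology⟩ :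
    C(Wd.{u}, Wd.{u}))

lemma sh_apply (M : ℝ) (o : Letter) (F : Wd.{u} →ᵇ ℂ) (l : Wd.{u}) :
    sh M o F l = M * F ⟨o :: l.down⟩ := rfl

lemma norm_sh {M : ℝ} (hM : 0 ≤ M) (o : Letter) (F : Wd.{u} →ᵇ ℂ) : ‖sh M o F‖ ≤ M * ‖F‖ := by
  refine (norm_le (by positivity)).2 fun l => ?_
  rw [sh_apply, norm_mul, Complex.norm_real, Real.norm_of_nonneg hM]
  exact mul_le_mul_of_nonneg_left (F.norm_coe_le_norm _) hM

lemma sh_gv {M : ℝ} (hM : 1 < M) (o : Letter) (j : ℕ) (l : Wd.{u}) :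
    sh M o (gv hM j) l = co (o :: l.down) j / (M : ℂ) ^ l.down.length := by
  have h0 : (M : ℂ) ≠ 0 := by exact_mod_cast (by linarith : M ≠ 0)
  rw [sh_apply]
  change (M : ℂ) * (co (o :: l.down) j / (M : ℂ) ^ (l.down.length + 1)) = _
  rw [pow_succ]
  field_simp

lemma gv_apply {M : ℝ} (hM : 1 < M) (j : ℕ) (l : Wd.{u}) :
    gv hM j l = co l.down j / (M : ℂ) ^ l.down.length := rfl

lemma s0 {M : ℝ} (hM : 1 < M) : sh M none (gv.{u} hM 0) = 0 := by
  ext l; rw [sh_gv]; simp [co]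

lemma s1 {M : ℝ} (hM : 1 < M) (j : ℕ) : sh M none (gv.{u} hM (j + 1)) = gv hM j := by
  ext l; rw [sh_gv]; rfl

lemma r0 {M : ℝ} (hM : 1 < M) (w : closedBall (0 : ℂ) 1) :
    sh M (some w) (gv.{u} hM 0) = (w : ℂ) • gv hM 0 := by
  ext l; rw [sh_gv]; simp [co, rs, gv_apply, mul_div_assoc]

lemma r1 {M : ℝ} (hM : 1 < M) (w : closedBall (0 : ℂ) 1) (j : ℕ) :
    sh M (some w) (gv.{u} hM (j + 1)) =
      (w : ℂ) • gv hM (j + 1) + (w : ℂ) • sh M (some w) (gv hM j) := by
  ext l
  simp only [coe_add, Pi.add_apply, coe_smul, smul_eq_mul, sh_gv, gv_apply, co, rs]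
  ring

noncomputable def Sp {M : ℝ} (hM : 1 < M) : Submodule ℂ (Wd.{u} →ᵇ ℂ) :=
  (Submodule.span ℂ (Set.range (gv hM))).topologicalClosure

lemma gv_mem {M : ℝ} (hM : 1 < M) (j : ℕ) : gv.{u} hM j ∈ Sp hM :=
  Submodule.le_topologicalClosure _ (Submodule.subset_span ⟨j, rfl⟩)

lemma Sp_le {M : ℝ} (hM : 1 < M) (P : Submodule ℂ (Wd.{u} →ᵇ ℂ))
    (hc : IsClosed (P : Set (Wd.{u} →ᵇ ℂ))) (h : ∀ j, gv hM j ∈ P) : Sp hM ≤ P :=
  Submodule.topologicalClosure_minimal _ (Submodule.span_le.2 (by rintro _ ⟨j, rfl⟩; exact h j)) hc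

lemma sh_mem {M : ℝ} (hM : 1 < M) (o : Letter) : ∀ F ∈ Sp.{u} hM, sh M o F ∈ Sp hM := by
  refine Sp_le hM ((Sp hM).comap (sh M o).toLinearMap)
    ((Submodule.isClosed_topologicalClosure _).preimage (sh M o).continuous) fun j => ?_
  change sh M o (gv hM j) ∈ Sp hM
  cases o with
  | none =>
    cases j with
    | zero => rw [s0]; exact zero_mem _
    | succ j => rw [s1]; exact gv_mem hM j
  | some w =>
    induction j with
    | zero => rw [r0]; exact Submodule.smul_mem _ _ (gv_mem hM 0)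
    | succ j ih =>
      rw [r1]; exact add_mem (Submodule.smul_mem _ _ (gv_mem hM _)) (Submodule.smul_mem _ _ ih)

lemma eq_on_Sp {M : ℝ} (hM : 1 < M) (A B : (Wd.{u} →ᵇ ℂ) →L[ℂ] (Wd.{u} →ᵇ ℂ))
    (h : ∀ j, A (gv hM j) = B (gv hM j)) : ∀ F ∈ Sp hM, A F = B F :=
  Sp_le hM (LinearMap.eqLocus A.toLinearMap B.toLinearMap) (isClosed_eq A.continuous B.continuous) h

noncomputable def op {M : ℝ} (hM : 1 < M) (o : Letter) : Sp.{u} hM →L[ℂ] Sp.{u} hM :=
  (sh M o).restrict (sh_mem hM o)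

lemma op_coe {M : ℝ} (hM : 1 < M) (o : Letter) (F : Sp.{u} hM) :
    (op hM o F : Wd.{u} →ᵇ ℂ) = sh M o F := rfl

lemma res_of {A : Type*} [Ring A] [Algebra ℂ A] (a b : A) (z : ℂ) (h1 : z • b - a * b = 1)
    (h2 : z • b - b * a = 1) : z ∈ resolventSet ℂ a ∧ resolvent a z = b := by
  have a1 : (algebraMap ℂ A z - a) * b = 1 := by rw [sub_mul, ← Algebra.smul_def, h1]
  have a2 : b * (algebraMap ℂ A z - a) = 1 := by
    rw [mul_sub, ← Algebra.commutes, ← Algebra.smul_def, h2]
  let U : Aˣ := ⟨_, _, a1, a2⟩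
  exact ⟨U.isUnit, Ring.inverse_unit U⟩

lemma op_res {M : ℝ} (hM : 1 < M) {z : ℂ} (hz : 1 ≤ ‖z‖) :
    z ∈ resolventSet ℂ (op.{u} hM none) ∧ ‖resolvent (op.{u} hM none) z‖ ≤ M := by
  have hz0 : z ≠ 0 := by rintro rfl; norm_num at hz
  let w : closedBall (0 : ℂ) 1 := ⟨z⁻¹, by
    rw [mem_closedBall_zero_iff, norm_inv]; exact inv_le_one_of_one_le₀ hz⟩
  have hw : z * (w : ℂ) = 1 := mul_inv_cancel₀ hz0
  have key := res_of (op.{u} hM none) (op hM (some w)) z ?_ ?_
  · refine ⟨key.1, ?_⟩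
    rw [key.2]
    exact ContinuousLinearMap.opNorm_le_bound _ (by linarith) fun F => norm_sh (by linarith) _ _
  · refine ContinuousLinearMap.ext fun F => Subtype.ext ?_
    refine eq_on_Sp hM (z • sh M (some w) - (sh M none).comp (sh M (some w)))
      (ContinuousLinearMap.id ℂ _) (fun j => ?_) F F.2
    change z • sh M (some w) (gv hM j) - sh M none (sh M (some w) (gv hM j)) = gv hM j
    induction j with
    | zero => rw [r0, map_smul, s0, smul_smul, hw]; simp
    | succ j ih =>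
      have e : sh M none (sh M (some w) (gv hM j)) = z • sh M (some w) (gv hM j) - gv hM j := by
        rw [eq_sub_iff_add_eq, ← eq_sub_iff_add_eq', ih]
      rw [r1, map_add, map_smul, map_smul, s1, smul_add, smul_smul, smul_smul, hw, one_smul,
        one_smul, e, smul_sub, smul_smul, mul_comm, hw, one_smul]
      abel
  · refine ContinuousLinearMap.ext fun F => Subtype.ext ?_
    refine eq_on_Sp hM (z • sh M (some w) - (sh M (some w)).comp (sh M none))
      (ContinuousLinearMap.id ℂ _) (fun j => ?_) F F.2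
    change z • sh M (some w) (gv hM j) - sh M (some w) (sh M none (gv hM j)) = gv hM j
    cases j with
    | zero => rw [r0, s0, map_zero, smul_smul, hw]; simp
    | succ j =>
      rw [r1, s1, smul_add, smul_smul, smul_smul, hw, one_smul, one_smul]; abel

lemma op_pow {M : ℝ} (hM : 1 < M) (j : ℕ) :
    (op.{u} hM none ^ j) ⟨gv hM j, gv_mem hM j⟩ = ⟨gv hM 0, gv_mem hM 0⟩ := by
  induction j with
  | zero => rfl
  | succ j ih =>
    rw [pow_succ, mul_apply_eq_comp, ← ih]
    congr 1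
    exact Subtype.ext (s1 hM j)

lemma q_pos {M : ℝ} (hM : 0 < M) (j k : ℕ) : 0 < q M j k := by
  have : 0 < (j + k).choose j := Nat.choose_pos (by omega)
  unfold q; positivity

lemma op_lower {M : ℝ} (hM : 1 < M) (j : ℕ) (hj : j ≠ 0) :
    (q M j ⌊(j : ℝ) / (M - 1)⌋₊)⁻¹ ≤ ‖op.{u} hM none ^ j‖ := by
  have hq := q_pos (by linarith : 0 < M) j ⌊(j : ℝ) / (M - 1)⌋₊
  have h1 := (op.{u} hM none ^ j).le_opNorm ⟨gv hM j, gv_mem hM j⟩
  rw [op_pow] at h1
  have h2 : (1 : ℝ) ≤ ‖gv.{u} hM 0‖ := by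
    have := (gv.{u} hM 0).norm_coe_le_norm ⟨[]⟩
    simpa [gv_apply, co] using this
  have h3 : ‖gv.{u} hM j‖ ≤ q M j ⌊(j : ℝ) / (M - 1)⌋₊ :=
    (norm_le hq.le).2 fun l => by
      rw [gv_apply]; simpa only [bd, if_neg hj] using co_bd hM j l.down
  rw [inv_le_iff_one_le_mul₀ hq]
  exact h2.trans (h1.trans (mul_le_mul_of_nonneg_left h3 (norm_nonneg _)))

lemma upper {A : Type*} [NormedRing A] [NormedAlgebra ℂ A] [CompleteSpace A] {a : A}
    (hs : spectrum ℂ a ⊆ ball 0 1) {M : ℝ}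
    (hM : ∀ z : ℂ, 1 ≤ ‖z‖ → ‖resolvent a z‖ ≤ M) (j k : ℕ) : ‖a ^ j‖ ≤ (q M j k)⁻¹ := by
  have h := choose_mul_norm_pow_le hs hM k j
  have hp : (0 : ℝ) < (j + k).choose j := by exact_mod_cast Nat.choose_pos (by omega)
  rw [q, inv_div, le_div_iff₀' hp, add_comm j k]
  exact h

lemma summable_q {M : ℝ} (hM : 1 < M) :
    Summable fun j : ℕ => (q M (j + 1) ⌊((j + 1 : ℕ) : ℝ) / (M - 1)⌋₊)⁻¹ := by
  have h0 : 0 < M := by linarith
  have hs : Summable fun j : ℕ => 2 * M ^ 3 * (1 / ((j + 1 : ℕ) : ℝ) ^ 2) :=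
    ((summable_nat_add_iff 1).2 (Real.summable_one_div_nat_pow.2 one_lt_two)).mul_left _
  refine Summable.of_nonneg_of_le (fun j => (inv_pos.2 (q_pos h0 _ _)).le) (fun j => ?_) hs
  refine (inv_anti₀ (q_pos h0 _ 2) (q_le hM _ 2)).trans ?_
  have e : ((j + 1 + 2).choose (j + 1) : ℝ) = (j + 3) * (j + 2) / 2 := by
    rw [Nat.choose_symm_add, Nat.cast_choose_two]; push_cast; ring
  rw [q, e]
  push_cast
  rw [inv_div, mul_one_div, div_le_div_iff₀ (by positivity) (by positivity)]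
  have : (0 : ℝ) ≤ j := by positivity
  have h3 : 0 < M ^ 3 := by positivity
  nlinarith [mul_nonneg h3.le this]

end E0X
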